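import Pool.Agent.Helper47.EP.Goals

/-!
# Packet EP-EXI (MP_5b9a11_al): a primitive invariant idempotent
-/

set_option autoImplicit false

namespace Pool.Agent.Helper89.EP.EXI

open MonoidAlgebra Pool.Agent.Helper47.EP Pool.Agent.Helper17.PF

/-- A nonzero value of a linear functional on an idempotent is attained on a primitive one. -/
theorem exists_prim {F A : Type} [Field F] [Ring A] [Algebra F A] [FiniteDimensional F A]
    (S : Set A) (hS : ∀ x ∈ S, ∀ y ∈ S, x - y ∈ S) (lam : A →ₗ[F] F) :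
    ∀ (n : ℕ) (e : A), e ∈ S → e * e = e → lam e ≠ 0 →
      Module.finrank F (LinearMap.range (LinearMap.mulLeft F e)) ≤ n →
      ∃ i, IsPrimitiveIdempotent S i ∧ lam i ≠ 0 := by
  intro n
  induction n with
  | zero =>
    intro e heS he hl hn
    exfalso
    have h1 : LinearMap.range (LinearMap.mulLeft F e) = ⊥ :=
      Submodule.finrank_eq_zero.1 (Nat.le_zero.1 hn)
    have h2 : e ∈ LinearMap.range (LinearMap.mulLeft F e) := ⟨e, he⟩
    rw [h1, Submodule.mem_bot] at h2
    exact hl (by rw [h2, map_zero])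
  | succ n ih =>
    intro e heS he hl hn
    have he0 : e ≠ 0 := fun h ↦ hl (by rw [h, map_zero])
    by_cases hp : ∀ f ∈ S, f * f = f → e * f = f → f * e = f → f = 0 ∨ f = e
    · exact ⟨e, ⟨heS, he, he0, hp⟩, hl⟩
    push Not at hp
    obtain ⟨f, hfS, hf, hef, hfe, hf0, hfn⟩ := hp
    have key : ∀ g : A, g * g = g → e * g = g → g * e = g → g ≠ e →
        Module.finrank F (LinearMap.range (LinearMap.mulLeft F g)) ≤ n := by
      intro g hg heg hge hgn
      have hgg : LinearMap.range (LinearMap.mulLeft F g) <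
          LinearMap.range (LinearMap.mulLeft F e) := by
        rw [SetLike.lt_iff_le_and_exists]
        refine ⟨?_, e, ⟨e, he⟩, ?_⟩
        · rintro _ ⟨y, rfl⟩
          exact ⟨g * y, by
            rw [LinearMap.mulLeft_apply, LinearMap.mulLeft_apply, ← mul_assoc, heg]⟩
        · rintro ⟨y, hy⟩
          rw [LinearMap.mulLeft_apply] at hy
          apply hgn
          rw [← hge]
          nth_rewrite 1 [← hy]
          rw [← mul_assoc, hg, hy]
      have h3 := Submodule.finrank_lt_finrank_of_lt hgg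
      omega
    by_cases hlf : lam f = 0
    · have h4 : lam (e - f) ≠ 0 := by rw [map_sub, hlf, sub_zero]; exact hl
      have h5 : (e - f) * (e - f) = e - f := by
        rw [mul_sub, sub_mul, sub_mul, he, hfe, hef, hf, sub_self, sub_zero]
      refine ih (e - f) (hS e heS f hfS) h5 h4 (key _ h5 ?_ ?_ ?_)
      · rw [mul_sub, he, hef]
      · rw [sub_mul, he, hfe]
      · intro h
        exact hf0 (sub_eq_self.1 h)
    · exact ih f hfS hf hlf (key f hf hef hfe hfn)

/-- the coefficient at `g` as a linear functional -/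
noncomputable def cf {F L : Type} [Field F] [Group L] (g : L) : MonoidAlgebra F L →ₗ[F] F where
  toFun x := x.coeff g
  map_add' x y := by simp
  map_smul' c x := by simp

theorem t (h1 : Pool.Agent.Helper47.EP.S_HB) : Pool.Agent.Helper47.EP.S_EXI := by
  intro p _ T A _ _ F _ C J
  obtain ⟨b1, b2, b3, b4, b5, b6, b7⟩ := h1 p T A F C
  have hev : ev C (0 : A → T.K) = ee C A := by
    rw [ev]
    have h2 : (⟨0, 0⟩ : Hs T A) = 1 := rfl
    rw [h2, ← MonoidAlgebra.one_def, one_mul]
  have hil : C.il ≠ 0 := by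
    intro h
    have h2 := C.il_mul
    rw [h, zero_mul] at h2
    exact zero_ne_one h2
  have hcoeff : ∀ g : Hs T A, (ee C A).coeff g = if g.v = 0 then C.il * C.ψ (-g.z) else 0 := by
    intro g
    rw [← hev]
    exact b5 0 g
  have hl : cf (1 : Hs T A) (ee C A) ≠ 0 := by
    change (ee C A).coeff 1 ≠ 0
    rw [hcoeff, if_pos (Hs.one_v), Hs.one_z, neg_zero, AddChar.map_zero_eq_one, mul_one]
    exact hil
  have hta : ∀ (j : A → ZMod p) (g : Hs T A), (ta j g).v = 0 ↔ g.v = 0 := by
    intro j g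
    constructor
    · intro h
      funext a
      have h3 : T.t (j a) (g.v a) = 0 := by
        rw [← ta_v, h]
        rfl
      have h4 := T.t_add (-(j a)) (j a) (g.v a)
      rw [neg_add_cancel, T.t_zero, h3, map_zero] at h4
      exact h4
    · intro h
      funext a
      rw [ta_v, h]
      exact map_zero _
  have hmem : ee C A ∈ {x : MonoidAlgebra F (Hs T A) | ee C A * x = x ∧ IJ J x} := by
    refine ⟨b1, fun j _ g ↦ ?_⟩
    rw [hcoeff, hcoeff, ta_z]
    by_cases h : g.v = 0
    · rw [if_pos h, if_pos ((hta j g).2 h)]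
    · rw [if_neg h, if_neg (fun h' ↦ h ((hta j g).1 h'))]
  have hS : ∀ x ∈ {x : MonoidAlgebra F (Hs T A) | ee C A * x = x ∧ IJ J x},
      ∀ y ∈ {x : MonoidAlgebra F (Hs T A) | ee C A * x = x ∧ IJ J x},
      x - y ∈ {x : MonoidAlgebra F (Hs T A) | ee C A * x = x ∧ IJ J x} := by
    rintro x ⟨hx1, hx2⟩ y ⟨hy1, hy2⟩
    refine ⟨by rw [mul_sub, hx1, hy1], fun j hj g ↦ ?_⟩
    have h3 := hx2 j hj g
    have h4 := hy2 j hj g
    simp only [MonoidAlgebra.coeff_sub, Finsupp.coe_sub, Pi.sub_apply, h3, h4]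
  obtain ⟨i, hi, hi'⟩ := exists_prim (F := F) _ hS (cf (1 : Hs T A)) _ _ hmem b1 hl le_rfl
  exact ⟨i, hi, hi'⟩

end Pool.Agent.Helper89.EP.EXI
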